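import Pool.Agent.Run7.h90.BGK.FerC

/-!
# The cofactors of the small prime factors of the Fermat numbers

Let `F_m = 2 ^ (2 ^ m) + 1`.

(1) Let `p` be a prime factor of `F_m` with `p ≤ 2 ^ (C m)`.  The binary digits of the cofactor `F_m / p` are normal in
every window: if `L ≥ 2 ^ (δ m)`, then every block `w` of `k` digits begins at `L / 2 ^ k + O(2 ^ (-ε m) L)` of the places
of any window of `L` places.  So all the blocks of length at most `(ε / 2) m` occur with the right frequency, and
`F_m / p` has `2 ^ (m - 1) (1 + O(2 ^ (-ε m)))` digits `1`.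
(2) For the same `p`, no sum of fewer than `(1 / 4 - o(1)) 2 ^ m` signed powers of `2` is a multiple of `F_m / p`, except
for the multiples of `F_m`.
(3) For every divisor `d ≤ 2 ^ (n + 2)` of `F_m`, a sum of `s` signed powers of `2` which is a multiple of `F_m / d` but
not of `F_m` has `2 ^ m < (2 s + 1) (n + 1)`.

Proof.  The theorem of Bourgain, Glibichuk and Konyagin on exponential sums over incomplete geometric progressions
modulo a prime is proved in `Pool/Agent/Run7/h90/BGK` (for all almost invariant sets): the large spectrum of the set has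
a large piece `B` with small doubling (Balog-Szemerédi-Gowers, library `H217R3.AK`), `|B + x B|` is small for many `x`,
and then, by the ring operations, for all `x`.  It is applied to the powers of `2`, of order `2 ^ (m + 1)` modulo `p`;
the digits of `F_m / p` are given by the residues of the powers of `2` modulo `p`.  For (2) and (3) the exponents are
made distinct modulo `2 ^ m`; if none of them is congruent to `- t - 1` or `- t - 2`, the residue of `2 ^ t a` modulo `d`
is less than `d / 4` in absolute value, where `a F_m / d` is the sum.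
-/

set_option autoImplicit false

namespace Pool.Agent.Results.MP_37e5fa_nt.CofactorsOfSmallPrimes

open Finset

/-- The `k` binary digits of `N` at the places `i, …, i + k - 1`, read as a number less than `2 ^ k`. -/
def block (N i k : ℕ) : ℕ := N / 2 ^ i % 2 ^ k

/-- Some sum of `s` signed powers of `2` is a multiple of `c` but not a multiple of `F`. -/
def SparseMultiple (F c s : ℕ) : Prop :=
  ∃ (σ : Fin s → ℤ) (e : Fin s → ℕ), (∀ l, σ l = 1 ∨ σ l = -1) ∧
    (c : ℤ) ∣ ∑ l, σ l * 2 ^ (e l) ∧ ¬ (F : ℤ) ∣ ∑ l, σ l * 2 ^ (e l)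

/-- **The cofactors of the small prime factors of the Fermat numbers.** -/
theorem result :
    (∀ C δ : ℝ, 1 ≤ C → 0 < δ → ∃ ε : ℝ, 0 < ε ∧ ∃ m₀ : ℕ, ∀ m : ℕ, m₀ ≤ m →
      ∀ p : ℕ, p.Prime → p ∣ Nat.fermatNumber m → (p : ℝ) ≤ (2 : ℝ) ^ (C * m) →
        (∀ i₀ L k w : ℕ, (2 : ℝ) ^ (δ * m) ≤ L → i₀ + L + k ≤ 2 ^ m → w < 2 ^ k →
          |(((Ico i₀ (i₀ + L)).filter fun i => block (Nat.fermatNumber m / p) i k = w).card : ℝ) - L / 2 ^ k| ≤
            (2 : ℝ) ^ (-(ε * m)) * L) ∧
        (∀ s : ℕ, SparseMultiple (Nat.fermatNumber m) (Nat.fermatNumber m / p) s →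
          (1 / 4 - (2 : ℝ) ^ (-(ε * m))) * 2 ^ m ≤ s)) ∧
    (∀ m d n s : ℕ, d ∣ Nat.fermatNumber m → d ≤ 2 ^ (n + 2) →
      SparseMultiple (Nat.fermatNumber m) (Nat.fermatNumber m / d) s → 2 ^ m < (2 * s + 1) * (n + 1)) := by
  refine ⟨?_, ?_⟩
  · intro C δ hC hδ
    obtain ⟨ε₁, hε₁, m₁, h1⟩ := Run7.h90.BGK.digits C δ hC hδ
    obtain ⟨ε₂, hε₂, m₂, h2⟩ := Run7.h90.BGK.sparse_prime C hC
    refine ⟨min ε₁ ε₂, lt_min hε₁ hε₂, max m₁ m₂, ?_⟩
    intro m hm p hp hd hpC
    have hmn : (0 : ℝ) ≤ m := Nat.cast_nonneg m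
    refine ⟨?_, ?_⟩
    · intro i₀ L k w hL hM hw
      refine (h1 m ((le_max_left _ _).trans hm) p hp hd hpC i₀ L k w hL hM hw).trans ?_
      gcongr
      · norm_num
      · exact min_le_left _ _
    · rintro s ⟨σ, e, hσ, h3, h4⟩
      have h5 := h2 m ((le_max_right _ _).trans hm) p hp hd hpC univ e σ (fun l _ => hσ l) h3 h4
      rw [card_univ, Fintype.card_fin] at h5
      refine le_trans ?_ h5
      gcongr
      · norm_num
      · exact min_le_right _ _
  · rintro m d n s hd hdn ⟨σ, e, hσ, h3, h4⟩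
    have h5 := Run7.h90.BGK.sparse_any m d n hd hdn univ e σ (fun l _ => hσ l) h3 h4
    rwa [card_univ, Fintype.card_fin] at h5

end Pool.Agent.Results.MP_37e5fa_nt.CofactorsOfSmallPrimes
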