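import Pool.Agent.Run7.h922.FL.Main

/-!
# A composite Fermat number is a pseudoprime to very few bases

`F_m = 2 ^ (2 ^ m) + 1` is a Fermat pseudoprime to the base `2`, and, in general, a composite number
can have a positive proportion of Fermat liars.  We show that a composite Fermat number `F_m`
has at most `3 F_m / 2 ^ (1.25 · 2 ^ (m / 2))` of them.

Proof (`Pool/Agent/Run7/h922/FL`).  Let `N = 2 ^ m`.  A prime divisor of a composite `F_m` is
`p = k 2 ^ e + 1` with `k ≥ 3` odd.  Write `N = q e + r` with `0 ≤ r < e`.  From `k 2 ^ e = -1` and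
`2 ^ N = -1` modulo `p` we get `k ^ q = ± 2 ^ r` modulo `p`, which is not an equality of integers,
so `k ^ q > 2 ^ e` and `k ^ N > 2 ^ (e ^ 2)`.  With `log₂ k ≥ 25 / 16` this gives
`log₂ k ≥ (5 / 4) e / √N`.  The liars of `F_m` form a `2`-group of units modulo `F_m`, so their
number is at most `2 ^ E`, `E = ∑ e` over the prime factors, while `log₂ F_m ≥ ∑ (e + log₂ k)`.
-/

set_option autoImplicit false

namespace Pool.Agent.Results.MP_37e5fa_nt.FewLiars

/-- If the Fermat number `F_m = 2 ^ (2 ^ m) + 1` is not prime then at most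
`3 F_m / 2 ^ ((5 / 4) √(2 ^ m))` residues `b` modulo `F_m` satisfy `b ^ (F_m - 1) = 1`.  So, for
`m ≥ 2`, the number `F_m` is prime if and only if more than that many residues satisfy Fermat's
congruence. -/
theorem result (m : ℕ) :
    (¬ (Nat.fermatNumber m).Prime →
      (Nat.card {b : ZMod (Nat.fermatNumber m) // b ^ (Nat.fermatNumber m - 1) = 1} : ℝ) ≤
        3 * (Nat.fermatNumber m : ℝ) / (2 : ℝ) ^ ((5 / 4 : ℝ) * √((2 : ℝ) ^ m))) ∧
    (2 ≤ m → ((Nat.fermatNumber m).Prime ↔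
      3 * (Nat.fermatNumber m : ℝ) / (2 : ℝ) ^ ((5 / 4 : ℝ) * √((2 : ℝ) ^ m)) <
        (Nat.card {b : ZMod (Nat.fermatNumber m) // b ^ (Nat.fermatNumber m - 1) = 1} : ℝ))) := by
  have hmain : ¬ (Nat.fermatNumber m).Prime →
      (Nat.card {b : ZMod (Nat.fermatNumber m) // b ^ (Nat.fermatNumber m - 1) = 1} : ℝ) ≤
        3 * (Nat.fermatNumber m : ℝ) / (2 : ℝ) ^ ((5 / 4 : ℝ) * √((2 : ℝ) ^ m)) := by
    intro hm
    have h1 : Nat.fermatNumber m - 1 = 2 ^ (2 ^ m) := by simp [Nat.fermatNumber]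
    have hn0 : Nat.fermatNumber m ≠ 0 := by
      have := Nat.three_le_fermatNumber m
      omega
    rw [h1]
    refine le_trans ?_ (H922.FL.main m hm)
    exact_mod_cast H922.FL.card_zmod_le (2 ^ m) _ hn0
  refine ⟨hmain, fun hm2 => ⟨fun hp => ?_, fun h => ?_⟩⟩
  · refine lt_of_lt_of_le (H922.FL.bound_lt m hm2) ?_
    exact_mod_cast H922.FL.card_ge _ hp
  · by_contra hnp
    exact absurd (hmain hnp) (not_le.2 h)

end Pool.Agent.Results.MP_37e5fa_nt.FewLiars
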