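import Pool.Agent.Run7.h370.BaseTwo

/-!
# Sparse multiples of divisors of Fermat numbers

Let `F_m = 2 ^ (2 ^ m) + 1`, and let `N = ∑_{i ∈ S} u_i 2 ^ i` with `|S| = s` and arbitrary integers `u_i`.  If `F_m`
does not divide `N` then, for every `t ≥ 1` with `t ^ (s - 1) < 2 ^ (m + 1)`,
`gcd (F_m, N) ≤ (∑ |u_i|) ^ (t ^ (s - 1)) 2 ^ (2 (2 ^ (m + 1) / t))`.
So for every `δ > 0` there is `c > 0` such that all the multiples of a divisor `d ≥ 2 ^ (δ 2 ^ m)` of `F_m`, other than the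
multiples of `F_m`, have at least `c m` nonzero digits in every expansion with digits `0, 1, -1` in base `2`, and their
digits are not contained in fewer than `c log (2 ^ m / (ℓ + 1))` intervals of length `ℓ`.  This applies to all the proper
divisors `d ≥ √F_m` if `F_m` is composite.

Proof (`Pool/Agent/Run7/h370`).  Take `q = 2 ^ e q' ≤ t ^ (s - 1)`, `q'` odd, such that all `q (i - i_0)` are close to
multiples of `2 ^ (m + 1)`.  Modulo `F_m`, the number `2` has a `q'`-th root `y`, a power of `2`, and a power `η` of `y` has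
`η ^ (2 ^ e) = -1`; so `N / 2 ^ (i_0)` is the value at `y` of a Laurent polynomial with small exponents and coefficients in
`ℤ[ζ]`, `ζ ^ (2 ^ e) = -1`.  The polynomial `X ^ q' - 2` is irreducible over `ℚ(ζ)`, so either the Laurent polynomial
vanishes modulo this binomial, and then `F_m` divides `N`, or their resultant is a nonzero element of `ℤ[ζ]`, whose norm is
a multiple of the greatest common divisor.
-/

set_option autoImplicit false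

namespace Pool.Agent.Results.MP_37e5fa_nt.SparseMultiples

open Run7.h370

theorem cast_fermat (m : ℕ) : ((Nat.fermatNumber m : ℕ) : ℤ) = ((2 : ℕ) : ℤ) ^ (2 ^ m) + 1 := by
  rw [Nat.fermatNumber]
  push_cast
  rfl

/-- **Sparse multiples of divisors of Fermat numbers.** -/
theorem result :
    -- arbitrary coefficients
    (∀ (m : ℕ) (S : Finset ℕ) (u : ℕ → ℤ) (t : ℕ), 0 < t → t ^ (S.card - 1) < 2 ^ (m + 1) →
      ¬ (Nat.fermatNumber m : ℤ) ∣ ∑ i ∈ S, u i * 2 ^ i →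
      (Int.gcd (Nat.fermatNumber m) (∑ i ∈ S, u i * 2 ^ i) : ℤ) ≤
        (∑ i ∈ S, |u i|) ^ (t ^ (S.card - 1)) * 2 ^ (2 * (2 ^ (m + 1) / t))) ∧
    -- large divisors have no sparse multiples
    (∀ δ : ℝ, 0 < δ → ∃ c : ℝ, 0 < c ∧ ∀ (m : ℕ) (S : Finset ℕ) (u : ℕ → ℤ) (ℓ : ℕ),
      (∀ i ∈ S, |u i| ≤ 2 ^ ℓ) → ¬ (Nat.fermatNumber m : ℤ) ∣ ∑ i ∈ S, u i * 2 ^ i →
      (2 : ℝ) ^ (δ * 2 ^ m) ≤ (Int.gcd (Nat.fermatNumber m) (∑ i ∈ S, u i * 2 ^ i) : ℝ) →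
      c * Real.log (2 ^ m / (ℓ + 1)) ≤ S.card) ∧
    -- the large proper divisors
    (∃ c : ℝ, 0 < c ∧ ∀ (m : ℕ) (d : ℤ), d ∣ Nat.fermatNumber m → 0 < d → d < Nat.fermatNumber m →
      (Nat.fermatNumber m : ℤ) ≤ d ^ 2 → ∀ (S : Finset ℕ) (u : ℕ → ℤ) (ℓ : ℕ),
      (∀ i ∈ S, |u i| ≤ 2 ^ ℓ) → d = ∑ i ∈ S, u i * 2 ^ i →
      c * Real.log (2 ^ m / (ℓ + 1)) ≤ S.card) := by
  have hA : ∀ (m : ℕ) (S : Finset ℕ) (u : ℕ → ℤ) (t : ℕ), 0 < t → t ^ (S.card - 1) < 2 ^ (m + 1) →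
      ¬ (Nat.fermatNumber m : ℤ) ∣ ∑ i ∈ S, u i * 2 ^ i →
      (Int.gcd (Nat.fermatNumber m) (∑ i ∈ S, u i * 2 ^ i) : ℤ) ≤
        (∑ i ∈ S, |u i|) ^ (t ^ (S.card - 1)) * 2 ^ (2 * (2 ^ (m + 1) / t)) := by
    intro m S u t ht hts hnd
    have h1 := gcdFermat 2 Nat.prime_two.squarefree le_rfl m S u t ht hts
    rw [← cast_fermat] at h1
    exact h1 hnd
  have hC : ∀ δ : ℝ, 0 < δ → ∃ c : ℝ, 0 < c ∧ ∀ (m : ℕ) (S : Finset ℕ) (u : ℕ → ℤ) (ℓ : ℕ),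
      (∀ i ∈ S, |u i| ≤ 2 ^ ℓ) → ¬ (Nat.fermatNumber m : ℤ) ∣ ∑ i ∈ S, u i * 2 ^ i →
      (2 : ℝ) ^ (δ * 2 ^ m) ≤ (Int.gcd (Nat.fermatNumber m) (∑ i ∈ S, u i * 2 ^ i) : ℝ) →
      c * Real.log (2 ^ m / (ℓ + 1)) ≤ S.card := by
    intro δ hδ
    obtain ⟨c, hc0, hc⟩ := asymGcd 2 le_rfl (δ / 2) (by positivity)
    refine ⟨c, hc0, fun m S u ℓ hu hnd hbig => ?_⟩
    have h1 := hc (2 ^ (m + 1)) (Nat.fermatNumber m) (by positivity) S u ℓ hu hnd (by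
      have e : (δ / 2 * ((2 ^ (m + 1) : ℕ) : ℝ)) = δ * 2 ^ m := by push_cast; ring
      rw [e]
      exact hbig) (fun t ht hts => hA m S u t ht hts hnd)
    refine le_trans ?_ h1
    refine mul_le_mul_of_nonneg_left ?_ hc0.le
    apply Real.log_le_log (by positivity)
    gcongr
    push_cast
    exact pow_le_pow_right₀ (by norm_num) (by omega)
  refine ⟨hA, hC, ?_⟩
  obtain ⟨c, hc0, hc⟩ := hC (1 / 2) (by norm_num)
  refine ⟨c, hc0, fun m d hd hd0 hd1 hd2 S u ℓ hu hdS => ?_⟩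
  refine hc m S u ℓ hu (by
    rw [← hdS]
    intro h
    exact absurd (Int.le_of_dvd hd0 h) (not_le.2 hd1)) ?_
  rw [← hdS]
  have h1 : (Int.gcd (Nat.fermatNumber m) d : ℤ) = d := by
    rw [Int.gcd_comm, Int.gcd_eq_left_iff_dvd hd0.le |>.2 hd]
  have h2 : (Int.gcd (Nat.fermatNumber m) d : ℝ) = (d : ℝ) := by exact_mod_cast h1
  rw [h2]
  have h3 : ((2 : ℝ) ^ ((1 / 2 : ℝ) * 2 ^ m)) ^ 2 ≤ (d : ℝ) ^ 2 := by
    rw [← Real.rpow_natCast, ← Real.rpow_mul (by norm_num)]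
    have e : (1 / 2 : ℝ) * 2 ^ m * ((2 : ℕ) : ℝ) = ((2 ^ m : ℕ) : ℝ) := by push_cast; ring
    rw [e, Real.rpow_natCast]
    have h4 : (2 : ℤ) ^ (2 ^ m) ≤ d ^ 2 := by
      refine le_trans ?_ hd2
      rw [cast_fermat]
      push_cast
      linarith
    exact_mod_cast h4
  exact (pow_le_pow_iff_left₀ (by positivity) (by exact_mod_cast hd0.le) two_ne_zero).1 h3

end Pool.Agent.Results.MP_37e5fa_nt.SparseMultiples
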